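import Pool.Agent.Helper95_PSC.Stmts
import Pool.Agent.Helper40_Pisot.Conj

set_option autoImplicit false

/-!
Lattice geometry: the height is injective on the lattice, a lattice point is bounded by its height
and its projection, and the projection of the lattice is dense.
-/

namespace Pool.Agent.PSC.H26

open Pool.Agent.Helper40_Pisot Pool.Agent.PSC MeasureTheory

variable {m : ℕ}

lemma ht_injective {M : Matrix (Fin (m + 1)) (Fin (m + 1)) ℤ} {r : ℝ}
    {α l : Fin (m + 1) → ℝ} (hP : PisotMat M r) (h : PFData M r α l) :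
    Function.Injective (ht l : Lat m → ℝ) := by
  have hirr : Irreducible ((M.transpose).charpoly.map (Int.castRingHom ℚ)) := by
    rw [Matrix.charpoly_transpose]
    exact hP.irr
  have hne : l ≠ 0 := by
    intro h0
    have h1 := h.l_pos 0
    rw [h0] at h1
    simp at h1
  have hx : ∀ i, ∑ j, ((M.transpose i j : ℤ) : ℝ) * l j = r * l i := by
    intro i
    rw [← h.l_eig i]
    refine Finset.sum_congr rfl fun j _ => ?_
    rw [Matrix.transpose_apply]
    ring
  have hind : Indep l := indep_of_eig M.transpose hirr hx hne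
  intro v w hvw
  have h1 : (fun i => v i - w i) = (0 : Fin (m + 1) → ℤ) := by
    apply hind
    have h2 : ht l v - ht l w = 0 := by rw [hvw]; ring
    rw [← h2]
    unfold ht
    rw [← Finset.sum_sub_distrib]
    refine Finset.sum_congr rfl fun j _ => ?_
    push_cast
    ring
  funext i
  have h2 := congrFun h1 i
  simp only [Pi.zero_apply] at h2
  omega

lemma last_eq {α : Fin (m + 1) → ℝ} (hα : ∑ i, α i = 1) (v : Lat m) :
    (v (Fin.last m) : ℝ) = (∑ j, (v j : ℝ)) * α (Fin.last m) - ∑ j, pr α v j := by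
  have h1 : α (Fin.last m) = 1 - ∑ i : Fin m, α i.castSucc := by
    rw [Fin.sum_univ_castSucc] at hα
    linarith
  have h2 : ∑ j, pr α v j = ∑ j : Fin m, (v j.castSucc : ℝ) -
      (∑ j, (v j : ℝ)) * ∑ j : Fin m, α j.castSucc := by
    unfold pr
    rw [Finset.sum_sub_distrib, ← Finset.mul_sum]
  have h3 : (∑ j, (v j : ℝ)) = ∑ j : Fin m, (v j.castSucc : ℝ) + (v (Fin.last m) : ℝ) :=
    Fin.sum_univ_castSucc _
  rw [h2, h1, h3]
  ring

lemma ht_eq {α : Fin (m + 1) → ℝ} (hα : ∑ i, α i = 1) (l : Fin (m + 1) → ℝ) (v : Lat m) :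
    ht l v = (∑ j, (v j : ℝ)) * (∑ i, l i * α i) +
      ∑ j : Fin m, (l j.castSucc - l (Fin.last m)) * pr α v j := by
  unfold ht
  rw [Fin.sum_univ_castSucc, Fin.sum_univ_castSucc (f := fun i => l i * α i)]
  rw [last_eq hα v]
  have h1 : ∀ j : Fin m, l j.castSucc * (v j.castSucc : ℝ) =
      (∑ j, (v j : ℝ)) * (l j.castSucc * α j.castSucc) + l j.castSucc * pr α v j := by
    intro j
    unfold pr
    ring
  simp_rw [h1, sub_mul]
  rw [Finset.sum_add_distrib, Finset.sum_sub_distrib, ← Finset.mul_sum, ← Finset.mul_sum]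
  ring

lemma lat_bound {α l : Fin (m + 1) → ℝ} (hpos : ∀ i, 0 < α i) (hα : ∑ i, α i = 1)
    (hl : ∀ i, 0 < l i) :
    ∃ K : ℝ, 0 < K ∧ ∀ (v : Lat m) (i : Fin (m + 1)),
      |(v i : ℝ)| ≤ K * (|ht l v| + ∑ j, |pr α v j|) := by
  set c : ℝ := ∑ i, l i * α i with hc
  have hc0 : 0 < c := by
    rw [hc]
    exact Finset.sum_pos (fun i _ => mul_pos (hl i) (hpos i)) ⟨0, Finset.mem_univ _⟩
  set L : ℝ := ∑ i, l i with hL
  have hL0 : 0 < L := by
    rw [hL]
    exact Finset.sum_pos (fun i _ => hl i) ⟨0, Finset.mem_univ _⟩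
  have hlL : ∀ i, l i ≤ L := by
    intro i
    rw [hL]
    exact Finset.single_le_sum (fun j _ => (hl j).le) (Finset.mem_univ i)
  have hα1 : ∀ i, α i ≤ 1 := by
    intro i
    rw [← hα]
    exact Finset.single_le_sum (fun j _ => (hpos j).le) (Finset.mem_univ i)
  refine ⟨(1 + L) / c + 1, by positivity, ?_⟩
  intro v i
  set s : ℝ := ∑ j, (v j : ℝ) with hs
  set P : ℝ := ∑ j, |pr α v j| with hP
  have hP0 : 0 ≤ P := Finset.sum_nonneg fun j _ => abs_nonneg _
  have hprP : ∀ j : Fin m, |pr α v j| ≤ P := by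
    intro j
    rw [hP]
    exact Finset.single_le_sum (f := fun j => |pr α v j|) (fun j _ => abs_nonneg _)
      (Finset.mem_univ j)
  have hsb : |s| ≤ (1 + L) / c * (|ht l v| + P) := by
    have h1 : s * c = ht l v - ∑ j : Fin m, (l j.castSucc - l (Fin.last m)) * pr α v j := by
      rw [ht_eq hα l v]
      ring
    have h2 : |∑ j : Fin m, (l j.castSucc - l (Fin.last m)) * pr α v j| ≤ L * P := by
      refine le_trans (Finset.abs_sum_le_sum_abs _ _) ?_
      rw [hP, Finset.mul_sum]
      refine Finset.sum_le_sum fun j _ => ?_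
      rw [abs_mul]
      refine mul_le_mul_of_nonneg_right ?_ (abs_nonneg _)
      rw [abs_le]
      constructor
      · linarith [hlL (Fin.last m), hl j.castSucc]
      · linarith [hlL j.castSucc, hl (Fin.last m)]
    have h3 : |s| * c ≤ |ht l v| + L * P := by
      have h4 : |s| * c = |s * c| := by rw [abs_mul, abs_of_pos hc0]
      rw [h4, h1]
      refine le_trans (abs_sub _ _) ?_
      linarith
    rw [div_mul_eq_mul_div, le_div_iff₀ hc0]
    have h5 : 0 ≤ |ht l v| := abs_nonneg _
    nlinarith [mul_nonneg hL0.le h5]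
  have hH : 0 ≤ |ht l v| := abs_nonneg _
  have hkey : |(v i : ℝ)| ≤ |s| + P := by
    induction i using Fin.lastCases with
    | last =>
      rw [last_eq hα v]
      refine le_trans (abs_sub _ _) ?_
      have h1 : |s * α (Fin.last m)| ≤ |s| := by
        rw [abs_mul, abs_of_pos (hpos _)]
        have := hα1 (Fin.last m)
        nlinarith [abs_nonneg s]
      have h2 : |∑ j, pr α v j| ≤ P := Finset.abs_sum_le_sum_abs _ _
      linarith
    | cast j =>
      have h0 : (v j.castSucc : ℝ) = s * α j.castSucc + pr α v j := by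
        unfold pr
        rw [hs]
        ring
      rw [h0]
      refine le_trans (abs_add_le _ _) ?_
      have h1 : |s * α j.castSucc| ≤ |s| := by
        rw [abs_mul, abs_of_pos (hpos _)]
        have := hα1 j.castSucc
        nlinarith [abs_nonneg s]
      linarith [hprP j]
  rw [add_mul, one_mul]
  linarith

lemma dense_pr {M : Matrix (Fin (m + 1)) (Fin (m + 1)) ℤ} {r : ℝ}
    {α l : Fin (m + 1) → ℝ} (h : PFData M r α l) :
    Dense (Set.range (pr α : Lat m → E m)) := by
  rw [Metric.dense_iff]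
  intro y ε hε
  -- the orbit of `0` comes close to the class of `y`
  have hd := dense_orbit h (0 : Fin m → UnitAddCircle)
  rw [Metric.dense_iff] at hd
  obtain ⟨z, hz, n, hn⟩ := hd (fun i => ((y i : ℝ) : UnitAddCircle)) ε hε
  rw [Metric.mem_ball, ← hn] at hz
  have hz' : ∀ i : Fin m, ‖((-(n : ℝ) * α i.castSucc - y i : ℝ) : UnitAddCircle)‖ < ε := by
    intro i
    have h1 := (dist_pi_lt_iff hε).1 hz i
    rw [dist_eq_norm] at h1
    have h2 : (fun n : ℤ => (0 : Fin m → UnitAddCircle) + n • gam α) n i -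
        ((y i : ℝ) : UnitAddCircle) = ((-(n : ℝ) * α i.castSucc - y i : ℝ) : UnitAddCircle) := by
      have h3 : (fun n : ℤ => (0 : Fin m → UnitAddCircle) + n • gam α) n i =
          n • ((-α i.castSucc : ℝ) : UnitAddCircle) := by
        simp only [zero_add, Pi.smul_apply]
        rfl
      rw [h3, ← AddCircle.coe_zsmul, zsmul_eq_mul, ← AddCircle.coe_sub]
      congr 1
      ring
    rw [h2] at h1
    exact h1
  set w : Fin m → ℤ := fun i => - round (-(n : ℝ) * α i.castSucc - y i) with hw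
  set v : Lat m := Fin.snoc w (n - ∑ i, w i) with hv
  have hv1 : ∀ i : Fin m, v i.castSucc = w i := by
    intro i
    rw [hv]
    exact Fin.snoc_castSucc (α := fun _ => ℤ) _ _ i
  have hv2 : v (Fin.last m) = n - ∑ i, w i := by
    rw [hv]
    exact Fin.snoc_last (α := fun _ => ℤ) _ _
  have hvs : (∑ j, (v j : ℝ)) = n := by
    rw [Fin.sum_univ_castSucc]
    simp_rw [hv1]
    rw [hv2]
    push_cast
    ring
  refine ⟨pr α v, ?_, ⟨v, rfl⟩⟩
  rw [Metric.mem_ball, dist_pi_lt_iff hε]
  intro i
  have h1 := hz' i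
  rw [UnitAddCircle.norm_eq] at h1
  rw [Real.dist_eq]
  have h2 : pr α v i - y i = (-(n : ℝ) * α i.castSucc - y i) -
      round (-(n : ℝ) * α i.castSucc - y i) := by
    unfold pr
    rw [hvs, hv1, hw]
    push_cast
    ring
  rw [h2]
  exact h1

theorem latA : LatAStmt := by
  intro m σ M r α l a0 x0 D
  exact ⟨ht_injective D.pis D.pf, lat_bound D.pf.α_pos D.pf.α_sum D.pf.l_pos, dense_pr D.pf⟩

end Pool.Agent.PSC.H26
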